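import Mathlib
import Pool.Agent.SharpS7.Defs
import Pool.Agent.SharpS7.Main

/-!
# The threshold `a_*` for the weighted quartic extension inequality on `𝕊⁷` is zero

`E = EuclideanSpace ℝ (Fin 8)`; `surf E` is the unnormalised surface measure `σ` of `𝕊⁷`,
`extension f` is `(fσ)^`, `extL4 f = ‖(fσ)^‖_{L⁴(ℝ⁸)}⁴`, `Wa E a = W_a`, `Admissible E a` is the
admissibility of `a` and `aStar E = a_*`.
-/

namespace Pool.Agent.Results.MP_404158_an.AStarZero

open Pool.Agent.SharpS7 MeasureTheory Metric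
open scoped ENNReal

/-- The total mass of `σ` is `π⁴ / 3`, as in the problem. -/
theorem surf_univ :
    surf (EuclideanSpace ℝ (Fin 8)) Set.univ = ENNReal.ofReal (Real.pi ^ 4 / 3) := by
  rw [Measure.toSphere_apply_univ, EuclideanSpace.volume_ball]
  simp only [finrank_euclideanSpace_fin, Fintype.card_fin]
  have h1 : (((8 : ℕ) : ℝ) / 2 + 1) = ((4 : ℕ) : ℝ) + 1 := by norm_num
  have h2 : √Real.pi ^ 8 = Real.pi ^ 4 := by
    have h3 : √Real.pi ^ 2 = Real.pi := Real.sq_sqrt Real.pi_pos.le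
    calc √Real.pi ^ 8 = (√Real.pi ^ 2) ^ 4 := by ring
      _ = _ := by rw [h3]
  rw [h1, Real.Gamma_nat_eq_factorial, h2, ENNReal.ofReal_one, one_pow, one_mul]
  have h4 : ((8 : ℕ) : ℝ≥0∞) = ENNReal.ofReal 8 := by norm_num
  rw [h4, ← ENNReal.ofReal_mul (by norm_num)]
  congr 1
  norm_num [Nat.factorial]
  ring

/-- **`a_* = 0`.**  Moreover, the sharp unweighted (`a = 0`) inequality
`‖(fσ)^‖_4⁴ ≤ |𝕊⁷|⁻² ‖σ^‖_4⁴ ‖f‖_2⁴` holds for every complex-valued `f ∈ L²(𝕊⁷)`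
(so constants are extremisers of the Tomas–Stein `L² → L⁴` inequality on `𝕊⁷`), and every
`a > 0` is admissible. -/
theorem result :
    extL4 (fun _ : sphere (0 : EuclideanSpace ℝ (Fin 8)) 1 => 1) < ∞ ∧
    (∀ f : sphere (0 : EuclideanSpace ℝ (Fin 8)) 1 → ℂ,
      MemLp f 2 (surf (EuclideanSpace ℝ (Fin 8))) →
      surf (EuclideanSpace ℝ (Fin 8)) Set.univ ^ 2 * extL4 f ≤
        extL4 (fun _ : sphere (0 : EuclideanSpace ℝ (Fin 8)) 1 => 1) *
          eLpNorm f 2 (surf (EuclideanSpace ℝ (Fin 8))) ^ 4) ∧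
    (∀ a : ℝ, 0 < a → Admissible (EuclideanSpace ℝ (Fin 8)) a) ∧
    aStar (EuclideanSpace ℝ (Fin 8)) = 0 := by
  have hd : Module.finrank ℝ (EuclideanSpace ℝ (Fin 8)) = 8 := by simp
  exact ⟨extL4_one_lt_top hd, fun f hf => sharp hd hf, fun a ha => admissible_of_pos hd ha,
    aStar_eq_zero hd⟩

end Pool.Agent.Results.MP_404158_an.AStarZero
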